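import Pool.Agent.Helper23.WC.Spec
import Pool.Agent.Helper49.VF.CommonZero

/-!
Part HALL: Hall's theorem and the theorem on common zeros.
-/

set_option autoImplicit false

namespace Pool.Agent.Helper61.WL.HALL

open MvPolynomial Pool.Agent.Helper23.WC

/-- Fewer polynomials without constant term than variables have a nontrivial common zero over an
algebraically closed field. -/
theorem common_zero {k : Type*} [Field k] {σ : Type*} [IsAlgClosed k] [Fintype σ]
    (s : Finset (MvPolynomial σ k))
    (hs : ∀ q ∈ s, constantCoeff q = 0) (hcard : s.card < Fintype.card σ) :
    ∃ w : σ → k, w ≠ 0 ∧ ∀ q ∈ s, eval w q = 0 := by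
  by_contra hcon
  push Not at hcon
  have hz : zeroLocus k (Ideal.span (s : Set (MvPolynomial σ k))) = {(0 : σ → k)} := by
    ext w
    rw [Set.mem_singleton_iff]
    constructor
    · intro hw
      by_contra hw0
      obtain ⟨q, hq, hne⟩ := hcon w hw0
      apply hne
      have := hw q (Ideal.subset_span hq)
      simpa [MvPolynomial.aeval_eq_eval] using this
    · rintro rfl
      intro q hq
      have hle : Ideal.span (s : Set (MvPolynomial σ k)) ≤
          vanishingIdeal k ({0} : Set (σ → k)) := by
        rw [Ideal.span_le]
        intro q hq
        rw [SetLike.mem_coe, mem_vanishingIdeal_singleton_iff]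
        have : constantCoeff q = 0 := hs q hq
        rw [aeval_eq_eval]
        have h0 := MvPolynomial.eval_zero' (R := k) (σ := σ)
        simpa [h0] using this
      have := hle hq
      rwa [mem_vanishingIdeal_singleton_iff] at this
  have hrad : (Ideal.span (s : Set (MvPolynomial σ k))).radical =
      vanishingIdeal k ({0} : Set (σ → k)) := by
    rw [← hz, vanishingIdeal_zeroLocus_eq_radical]
  have hmin : (vanishingIdeal k ({0} : Set (σ → k)) : Ideal (MvPolynomial σ k)) ∈
      (Ideal.span (s : Set (MvPolynomial σ k))).minimalPrimes := by
    rw [← Ideal.radical_minimalPrimes, hrad, Ideal.minimalPrimes_eq_subsingleton_self]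
    simp
  have h1 := Ideal.height_le_card_of_mem_minimalPrimes_span_finset hmin
  rw [Pool.Agent.Helper49.VF.height_point] at h1
  have h2 : Fintype.card σ ≤ s.card := by exact_mod_cast h1
  omega

theorem main : St_HALL := by
  intro K _ _ n r s e D H hH hD hfin
  classical
  -- the relation
  let Rel : Fin r → Fin s → Prop := fun i j =>
    ∃ m ∈ (H j).support, (∀ l, m (Sum.inl l) = 0) ∧ m (Sum.inr i) ≠ 0
  have hRel : ∀ i j, Rel i j → e i ≤ D j := by
    rintro i j ⟨m, hm, -, hi⟩
    have hw := hH j (mem_support_iff.1 hm)
    rw [← hw]
    exact Finsupp.le_weight_of_ne_zero' (wt (n := n) e) (s := Sum.inr i) hi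
  let t : Fin r → Finset (Fin s) := fun i => Finset.univ.filter (Rel i)
  have hall : ∀ I : Finset (Fin r), I.card ≤ (I.biUnion t).card := by
    intro I
    by_contra hlt
    push Not at hlt
    let φ : MvPolynomial (Fin (n + 1) ⊕ Fin r) K →ₐ[K] MvPolynomial {i // i ∈ I} K :=
      aeval (Sum.elim 0 fun i => if h : i ∈ I then X ⟨i, h⟩ else 0)
    obtain ⟨w, hw0, hw⟩ := common_zero ((I.biUnion t).image fun j => φ (H j))
      (by
        intro q hq
        obtain ⟨j, -, rfl⟩ := Finset.mem_image.1 hq
        have h0 : ∀ p : MvPolynomial (Fin (n + 1) ⊕ Fin r) K,
            constantCoeff (φ p) = constantCoeff p := by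
          intro p
          have : (constantCoeff (R := K) (σ := {i // i ∈ I})).comp φ.toRingHom =
              constantCoeff (R := K) (σ := Fin (n + 1) ⊕ Fin r) := by
            apply MvPolynomial.ringHom_ext
            · intro a
              simp [φ]
            · intro i
              rcases i with i | i
              · simp [φ]
              · by_cases h : i ∈ I
                · simp [φ, h]
                · simp [φ, h]
          exact RingHom.congr_fun this p
        rw [h0, constantCoeff_eq]
        by_contra hne
        have := hH j hne
        simp at this
        have := hD j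
        omega)
      (by
        rw [Fintype.card_coe]
        exact lt_of_le_of_lt Finset.card_image_le hlt)
    let w' : Fin r → K := fun i => if h : i ∈ I then w ⟨i, h⟩ else 0
    have hev : ∀ p : MvPolynomial (Fin (n + 1) ⊕ Fin r) K,
        eval (Sum.elim (0 : Fin (n + 1) → K) w') p = eval w (φ p) := by
      intro p
      have : (eval w).comp φ.toRingHom = eval (Sum.elim (0 : Fin (n + 1) → K) w') := by
        apply MvPolynomial.ringHom_ext
        · intro a
          simp [φ]
        · intro i
          rcases i with i | i
          · simp [φ]
          · by_cases h : i ∈ I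
            · simp [φ, h, w']
            · simp [φ, h, w']
      exact (RingHom.congr_fun this p).symm
    have hzero : w' = 0 := by
      apply hfin
      intro j
      by_cases hj : j ∈ I.biUnion t
      · rw [hev]
        exact hw _ (Finset.mem_image_of_mem _ hj)
      · rw [eval_eq]
        apply Finset.sum_eq_zero
        intro m hm
        apply mul_eq_zero_of_right
        by_cases hl : ∀ l, m (Sum.inl l) = 0
        · -- some `w i` occurs
          have hwt := hH j (mem_support_iff.1 hm)
          have hm0 : m ≠ 0 := by
            rintro rfl
            simp at hwt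
            have := hD j
            omega
          obtain ⟨i, hi⟩ : ∃ i, m (Sum.inr i) ≠ 0 := by
            by_contra hcon
            push Not at hcon
            apply hm0
            ext i
            rcases i with i | i
            · exact hl i
            · exact hcon i
          have hiI : i ∉ I := by
            intro hiI
            apply hj
            rw [Finset.mem_biUnion]
            exact ⟨i, hiI, by simp only [t, Finset.mem_filter, Finset.mem_univ, true_and]
                              exact ⟨m, hm, hl, hi⟩⟩
          apply Finset.prod_eq_zero (Finsupp.mem_support_iff.2 hi)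
          simp [w', hiI, hi]
        · push Not at hl
          obtain ⟨l, hl⟩ := hl
          apply Finset.prod_eq_zero (Finsupp.mem_support_iff.2 hl)
          simp [hl]
    apply hw0
    ext ⟨i, hi⟩
    have := congrFun hzero i
    simpa [w', hi] using this
  obtain ⟨ι, hι, hι2⟩ := (Finset.all_card_le_biUnion_card_iff_exists_injective t).1 hall
  refine ⟨ι, hι, fun i => hRel i _ ?_⟩
  have := hι2 i
  simpa [t] using this

end Pool.Agent.Helper61.WL.HALL
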